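import Pool.Agent.N17.CO.LB2
import Pool.Agent.N17.CO.MAIN2
import Pool.Agent.N17.CO.SC
import Pool.Agent.N17.CO.PERT
import Pool.Agent.N17.CO.LOW
import Pool.Agent.N17.CO.FULL
import Pool.Agent.N17.CO.CYCK
import Pool.Agent.N17.CO.GCD
import Pool.Agent.N17.CO.HOM
import Pool.Agent.N17.CO.MULTI
import Pool.Agent.N17.CO.AV
import Pool.Agent.N17.CO.POLY
import Pool.Agent.N17.CO.COUNT
import Pool.Agent.N17.CO.POT
import Pool.Agent.N17.CO.SWAP
import Pool.Agent.N17.CO.HALL
import Pool.Agent.N17.CO.TIGHT
import Pool.Agent.N17.CO.CONN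
import Pool.Agent.N17.CO.IND
import Pool.Agent.N17.CO.CP
import Pool.Agent.N17.CO.A3

/-!
# The Atiyah conjecture for torsion-free groups in codimension one

Let `G` be a torsion-free group and let finite subsets `T i j` of `G` be given, for `i < m`, `j < l`.
The `m × l` matrices over the complex group ring of `G` whose entry at `(i, j)` is supported in
`T i j` form a space `ℂ ^ n`, `n = ∑ |T i j|`. The kernel dimension is at least the deficiency of the
bipartite graph of the nonempty `T i j`, and it is equal to it outside countably many hypersurfaces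
(`MP_54e5d7_al.GenericMatrices`). The sets where the dimension is larger by at least `ε` are Zariski
closed. Here their parts of codimension one are determined: there is one hypersurface `D = 0` (perhaps
empty) such that outside a countable union of closed sets of codimension two the kernel dimension is
the deficiency if `D ≠ 0` and the deficiency plus one if `D = 0`, in particular an integer; and
everywhere on `D = 0` there is an obvious reason for the larger kernel, a block of the matrix which is,
up to multiplication of its rows and columns by elements of `G`, a singular matrix of complex numbers.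

Idea. Let `π` be irreducible and let the dimension be at least `d + ε` on `π = 0`, `d` the deficiency.
Then `π` is homogeneous in each row and in each column (only finitely many irreducible polynomials
vanish in the closed set `dim ≥ d + ε` and rows and columns can be scaled), and it does not vanish at
a maximum matching, where the dimension is `d`. A simple alternating cycle of the matching whose
product `g` is not `1` has infinite order, `1 + y g` is injective for all `y`, so `π` is constant on the
line between the two matchings of the cycle: its degree in these rows is zero. So the products around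
all cycles in rows of positive degree are trivial, there are potentials, `π` depends only on the
corresponding blocks (by scaling along tight sets of rows), and if all these scalar blocks were
invertible the dimension would be `d`. Conversely a change of one coefficient changes the dimension by
at most one, so it is generically `d + 1` on `π = 0`.

The parts were written by helpers 713 (SC), 216 (PERT), 521 (LOW), 701 (FULL), 458 (CYCK), 608 (GCD,
HALL, CONN), 157 (HOM), 273 (MULTI), 953 (AV), 999 (POLY), 570 (COUNT), 558 (POT), 787 (SWAP), 833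
(TIGHT), 401 (IND), 644 (CP), 152 (A3), 814 (LB), 284 (MAIN).
-/

set_option autoImplicit false

namespace Pool.Agent.Results.MP_95030e_al.CodimensionOne

open MvPolynomial

/-- The kernel of right multiplication by the matrix `A` over the complex group ring on row vectors
of length `m` over `l2(G)`: all square-summable `x` with `x A = 0`. -/
def kernel {G : Type} [Group G] {m l : ℕ} (A : Matrix (Fin m) (Fin l) (G →₀ ℂ)) :
    Set (lp (fun _ : Fin m × G => ℂ) 2) :=
  {x | ∀ (j : Fin l) (g : G),
    ∑ k : Fin m, ∑ h ∈ (A k j).support, x (k, g * h⁻¹) * A k j h = 0}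

open Classical in
/-- The von Neumann dimension of that kernel: the sum over `i` of one minus the square of the
distance from the basis vector at `(i, 1)` to the kernel, that is, the sum of the squared lengths
of the projections of these vectors to the kernel. -/
noncomputable def kerDim {G : Type} [Group G] {m l : ℕ}
    (A : Matrix (Fin m) (Fin l) (G →₀ ℂ)) : ℝ :=
  ∑ i : Fin m, (1 - Metric.infDist
    (lp.single (E := fun _ : Fin m × G => ℂ) 2 (i, (1 : G)) (1 : ℂ)) (kernel A) ^ 2)

/-- The index set of the coefficients of the `m × l` matrices whose entry at `(i, j)` is supported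
in `T i j`. -/
abbrev Index {G : Type} {m l : ℕ} (T : Fin m → Fin l → Finset G) : Type :=
  (i : Fin m) × (j : Fin l) × T i j

/-- The matrix whose entry at `(i, j)` is the sum of `a (i, j, t) t` over `t` in `T i j`. -/
noncomputable def mat {G : Type} {m l : ℕ} (T : Fin m → Fin l → Finset G)
    (a : Index T → ℂ) : Matrix (Fin m) (Fin l) (G →₀ ℂ) :=
  fun i j => ∑ t : T i j, Finsupp.single (t : G) (a ⟨i, j, t⟩)

open Classical in
/-- The columns `j` for which some `T i j` with `i` in `S` is nonempty. -/
noncomputable def nbr {G : Type} {m l : ℕ} (T : Fin m → Fin l → Finset G) (S : Finset (Fin m)) :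
    Finset (Fin l) :=
  Finset.univ.filter (fun j : Fin l => ∃ i ∈ S, (T i j).Nonempty)

/-- The largest value of `|S| - |N(S)|`, where `S` is a set of rows and `N(S)` is the set of the
columns `j` for which some `T i j` with `i` in `S` is nonempty. -/
noncomputable def deficiency {G : Type} {m l : ℕ} (T : Fin m → Fin l → Finset G) : ℕ :=
  Finset.univ.sup (fun S : Finset (Fin m) => S.card - (nbr T S).card)

/-- An obvious reason for a kernel of dimension at least `deficiency T + 1`: there are a set `Q` of
rows with `|Q| = |N(Q)| + deficiency T` and a nonzero row vector `w` over the group ring, with the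
entries `w x = v x • α x`, complex multiples of group elements, and zero in `Q`, such that the row
vector `w A` is zero outside the columns of `N(Q)`. Moreover the part of `A` which matters here is a
matrix of complex numbers up to multiplication of the rows and columns by group elements: for `v x`
not zero and `y` not in `N(Q)` the entry of `A` at `(x, y)` has at most one term, at
`(α x)⁻¹ * β y`. -/
def Obvious {G : Type} [Group G] {m l : ℕ} (T : Fin m → Fin l → Finset G) (a : Index T → ℂ) : Prop :=
  ∃ (Q : Finset (Fin m)) (v : Fin m → ℂ) (α : Fin m → G) (β : Fin l → G),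
    Q.card = (nbr T Q).card + deficiency T ∧ (∀ x ∈ Q, v x = 0) ∧ (∃ x, v x ≠ 0) ∧
    (∀ x y, v x ≠ 0 → y ∉ nbr T Q → ∀ t ∈ T x y, t = (α x)⁻¹ * β y) ∧
    ∀ y, y ∉ nbr T Q → ∀ g : G, ∑ x, v x * mat T a x y ((α x)⁻¹ * g) = 0

set_option linter.unusedSectionVars false

namespace Aux

open Pool.Agent.W649.ZL Pool.Agent.N17.CO

variable {G : Type} [Group G] {m l : ℕ} (T : Fin m → Fin l → Finset G)

/-- group elements -/
def hh : Index T → G := fun i => i.2.2.1
/-- rows -/
def kk : Index T → Fin m := fun i => i.1
/-- columns -/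
def jj : Index T → Fin l := fun i => i.2.1

theorem nb_eq (S : Finset (Fin m)) : nb (kk T) (jj T) S = nbr T S := by
  ext y
  simp only [nb, nbr, Finset.mem_filter, Finset.mem_univ, true_and]
  constructor
  · rintro ⟨⟨i, y', t⟩, hi, rfl⟩
    exact ⟨i, hi, ⟨t.1, t.2⟩⟩
  · rintro ⟨i, hi, t, ht⟩
    exact ⟨⟨i, y, ⟨t, ht⟩⟩, hi, rfl⟩

theorem matM_eq (a : Index T → ℂ) : matM (hh T) (kk T) (jj T) a = mat T a := by
  funext i' j'
  unfold matM mat
  rw [Fintype.sum_sigma]
  rw [Finset.sum_eq_single i']
  · rw [Fintype.sum_sigma, Finset.sum_eq_single j']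
    · refine Finset.sum_congr rfl fun t _ => ?_
      rw [if_pos ⟨rfl, rfl⟩]
      rfl
    · intro y _ hy
      apply Finset.sum_eq_zero
      intro t _
      rw [if_neg]
      rintro ⟨_, h2⟩
      exact hy h2
    · intro hh; exact absurd (Finset.mem_univ _) hh
  · intro x _ hx
    apply Finset.sum_eq_zero
    intro t _
    rw [if_neg]
    rintro ⟨h1, _⟩
    exact hx h1
  · intro hh; exact absurd (Finset.mem_univ _) hh

theorem kd_eq (a : Index T → ℂ) : kerDim (mat T a) = kd (famR (hh T) (kk T) (jj T)) a := by
  rw [← kerDimM_eq, matM_eq]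
  unfold kerDim kerDimM
  congr!

theorem hDf : Df (kk T) (jj T) (deficiency T) := by
  intro S
  rw [nb_eq]
  have h1 : S.card - (nbr T S).card ≤ deficiency T :=
    Finset.le_sup (f := fun S : Finset (Fin m) => S.card - (nbr T S).card) (Finset.mem_univ S)
  omega

theorem hTi : ∃ S, Ti (kk T) (jj T) (deficiency T) S := by
  obtain ⟨S, _, hS⟩ := Finset.exists_mem_eq_sup (Finset.univ : Finset (Finset (Fin m)))
    ⟨∅, Finset.mem_univ _⟩ (fun S : Finset (Fin m) => S.card - (nbr T S).card)
  have hS' : deficiency T = S.card - (nbr T S).card := hS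
  by_cases h0 : deficiency T = 0
  · refine ⟨∅, ?_⟩
    rw [Ti, h0]
    simp [nb]
  · refine ⟨S, ?_⟩
    rw [Ti, nb_eq]
    omega

theorem hge (a : Index T → ℂ) : (deficiency T : ℝ) ≤ kerDim (mat T a) := by
  rw [kd_eq]
  exact (MAIN.generic (hh T) (kk T) (jj T) (deficiency T) (hDf T) (hTi T)).1 a

theorem obvious_of_Ob (a : Index T → ℂ) (h : Ob (hh T) (kk T) (jj T) (deficiency T) a) :
    Obvious T a := by
  classical
  obtain ⟨Q, v, α, β, hQ, h1, h2, h3, h4⟩ := h
  refine ⟨Q, v, α, β, ?_, h1, h2, ?_, ?_⟩
  · rw [← nb_eq]; exact hQ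
  · intro x y hx hy t ht
    exact h3 ⟨x, y, ⟨t, ht⟩⟩ hx (by rw [nb_eq]; exact hy)
  · intro y hy g
    rw [← nb_eq] at hy
    have h5 := h4 y hy
    have e1 : ∀ x, v x * mat T a x y ((α x)⁻¹ * g) =
        if g = β y then ∑ t : T x y, a ⟨x, y, t⟩ * v x else 0 := by
      intro x
      by_cases hv : v x = 0
      · simp [hv]
      · have e2 : mat T a x y ((α x)⁻¹ * g) = ∑ t : T x y, if g = β y then a ⟨x, y, t⟩ else 0 := by
          unfold mat
          rw [Finsupp.finsetSum_apply]
          refine Finset.sum_congr rfl fun t _ => ?_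
          have e3 : (t : G) = (α x)⁻¹ * β y := h3 ⟨x, y, t⟩ hv hy
          rw [Finsupp.single_apply, e3]
          by_cases hg : g = β y
          · rw [if_pos hg, hg, if_pos rfl]
          · rw [if_neg hg, if_neg]
            intro h6
            exact hg (mul_left_cancel h6).symm
        rw [e2]
        split_ifs with hg
        · rw [Finset.mul_sum]
          exact Finset.sum_congr rfl fun t _ => mul_comm _ _
        · simp
    rw [Finset.sum_congr rfl fun x _ => e1 x]
    split_ifs with hg
    · refine Eq.trans ?_ h5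
      rw [Fintype.sum_sigma]
      refine Finset.sum_congr rfl fun x _ => ?_
      rw [Fintype.sum_sigma, Finset.sum_eq_single y]
      · refine Finset.sum_congr rfl fun t _ => ?_
        rw [if_pos (show jj T ⟨x, y, t⟩ = y from rfl)]
        rfl
      · intro y' _ hy'
        apply Finset.sum_eq_zero
        intro t _
        rw [if_neg]
        exact hy'
      · intro hh; exact absurd (Finset.mem_univ _) hh
    · simp

theorem Ob_of_obvious (a : Index T → ℂ) (h : Obvious T a) :
    Ob (hh T) (kk T) (jj T) (deficiency T) a := by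
  classical
  obtain ⟨Q, v, α, β, hQ, h1, h2, h3, h4⟩ := h
  refine ⟨Q, v, α, β, ?_, h1, h2, ?_, ?_⟩
  · rw [Ti, nb_eq]; exact hQ
  · rintro ⟨x, y, t⟩ hx hy
    rw [nb_eq] at hy
    exact h3 x y hx hy t.1 t.2
  · intro y hy
    rw [nb_eq] at hy
    refine Eq.trans ?_ (h4 y hy (β y))
    rw [Fintype.sum_sigma]
    refine Finset.sum_congr rfl fun x _ => ?_
    rw [Fintype.sum_sigma, Finset.sum_eq_single y]
    · unfold mat
      rw [Finsupp.finsetSum_apply, Finset.mul_sum]
      refine Finset.sum_congr rfl fun t _ => ?_
      rw [if_pos (show jj T ⟨x, y, t⟩ = y from rfl)]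
      by_cases hv : v x = 0
      · have hv' : v (kk T ⟨x, y, t⟩) = 0 := hv
        rw [hv, hv', mul_zero, zero_mul]
      · have e3 : (t : G) = (α x)⁻¹ * β y := h3 x y hv hy t.1 t.2
        rw [Finsupp.single_apply, if_pos e3]
        exact mul_comm _ _
    · intro y' _ hy'
      apply Finset.sum_eq_zero
      intro t _
      rw [if_neg]
      exact hy'
    · intro hh; exact absurd (Finset.mem_univ _) hh

end Aux

open Pool.Agent.N17.CO in
/-- **The Atiyah conjecture in codimension one.** Let `G` be a torsion-free group and let finite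
subsets `T i j` of `G` be given, for `i < m`, `j < l`. There are a polynomial `D ≠ 0` and polynomials
`P n`, `Q n`, relatively prime for each `n`, in the coefficients `a` of the `m × l` matrices over the
complex group ring of `G` whose entry at `(i, j)` is supported in `T i j`, with the following
properties.

(1) If `a` is not in any of the sets `P n = Q n = 0`, then the dimension of the kernel is
`deficiency T` if `D(a) ≠ 0` and `deficiency T + 1` if `D(a) = 0`.
(2) For all `a` with `D(a) = 0` there is an obvious reason for a kernel of dimension at least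
`deficiency T + 1`, and the dimension is at least `deficiency T + 1` whenever there is such a reason.
(3) For every `ε > 0` there is a `C` such that for all `N` the kernel dimension is less than
`deficiency T + ε` if `D(a) ≠ 0`, and less than `deficiency T + 1 + ε` if `D(a) = 0`, for all
integral `a` with coefficients between `-N` and `N`, except for at most `C (N + 1) ^ (n - 2)`, where
`n` is the number of coefficients. -/
theorem result (G : Type) [Group G] (htf : ∀ g : G, g ≠ 1 → ¬ IsOfFinOrder g) (m l : ℕ)
    (T : Fin m → Fin l → Finset G) :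
    ∃ (D : MvPolynomial (Index T) ℂ) (P Q : ℕ → MvPolynomial (Index T) ℂ),
      D ≠ 0 ∧ (∀ n, IsRelPrime (P n) (Q n)) ∧
      (∀ a : Index T → ℂ, (∀ n, ¬ (eval a (P n) = 0 ∧ eval a (Q n) = 0)) →
        (eval a D ≠ 0 → kerDim (mat T a) = deficiency T) ∧
        (eval a D = 0 → kerDim (mat T a) = deficiency T + 1)) ∧
      (∀ a : Index T → ℂ, eval a D = 0 → Obvious T a) ∧
      (∀ a : Index T → ℂ, Obvious T a → (deficiency T : ℝ) + 1 ≤ kerDim (mat T a)) ∧
      ∀ ε : ℝ, 0 < ε → ∃ C : ℕ, ∀ N : ℕ, Set.ncard {a : Index T → ℤ | (∀ i, |a i| ≤ N) ∧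
        ((eval (fun i => (a i : ℂ)) D ≠ 0 ∧
          (deficiency T : ℝ) + ε ≤ kerDim (mat T (fun i => (a i : ℂ)))) ∨
        (deficiency T : ℝ) + 1 + ε ≤ kerDim (mat T (fun i => (a i : ℂ))))} ≤
          C * (N + 1) ^ (Fintype.card (Index T) - 2) := by
  classical
  have hA3 : S_A3 := t_A3 t_CYCK t_SWAP t_POLY
  have hCONN : S_CONN := t_CONN t_HALL t_TIGHT
  have hIND : S_IND := t_IND t_TIGHT
  have hLB : S_LB2 := t_LB2 t_CP hA3 t_POT hCONN hIND t_HALL t_TIGHT t_FULL
  have hM : S_MAIN2 := t_MAIN2 t_SC t_HOM t_MULTI t_PERT t_AV t_GCD t_LOW hLB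
  obtain ⟨D, P, Q, hD, hPQ, hD1, hD2, hV⟩ := hM G (Fin m) (Fin l) (Index T) (Aux.hh T) (Aux.kk T)
    (Aux.jj T) (deficiency T) htf (Aux.hDf T) (Aux.hTi T)
  have hD3 : ∀ a : Index T → ℂ, Obvious T a → (deficiency T : ℝ) + 1 ≤ kerDim (mat T a) := by
    intro a ha
    rw [Aux.kd_eq]
    exact hD2 a (Aux.Ob_of_obvious T a ha)
  refine ⟨D, P, Q, hD, hPQ, ?_, fun a ha => Aux.obvious_of_Ob T a (hD1 a ha), hD3, ?_⟩
  · intro a ha
    have h2 := Aux.hge T a
    refine ⟨fun hDa => ?_, fun hDa => ?_⟩
    · by_contra hne
      have h3 : (deficiency T : ℝ) < kerDim (mat T a) := lt_of_le_of_ne h2 (Ne.symm hne)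
      obtain ⟨n, hn⟩ := exists_nat_one_div_lt (sub_pos.2 h3)
      obtain ⟨q, _, hq⟩ := hV n a (Or.inl ⟨hDa, by rw [← Aux.kd_eq]; linarith⟩)
      exact ha q hq
    · by_contra hne
      have h4 : (deficiency T : ℝ) + 1 ≤ kerDim (mat T a) :=
        hD3 a (Aux.obvious_of_Ob T a (hD1 a hDa))
      have h3 : (deficiency T : ℝ) + 1 < kerDim (mat T a) := lt_of_le_of_ne h4 (Ne.symm hne)
      obtain ⟨n, hn⟩ := exists_nat_one_div_lt (sub_pos.2 h3)
      obtain ⟨q, _, hq⟩ := hV n a (Or.inr (by rw [← Aux.kd_eq]; linarith))
      exact ha q hq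
  · intro ε hε
    obtain ⟨n, hn⟩ := exists_nat_one_div_lt hε
    have hc : ∀ q : ℕ, ∃ C : ℕ, ∀ N : ℕ, Set.ncard {a : Index T → ℤ | (∀ i, |a i| ≤ N) ∧
        eval (fun i => (a i : ℂ)) (P q) = 0 ∧ eval (fun i => (a i : ℂ)) (Q q) = 0} ≤
          C * (N + 1) ^ (Fintype.card (Index T) - 2) := fun q =>
      t_COUNT (Index T) (P q) (Q q) (hPQ q)
    choose C hCC using hc
    refine ⟨∑ q ∈ Finset.range (2 * n + 3), C q, fun N => ?_⟩
    have hbox : Set.Finite {a : Index T → ℤ | ∀ i, |a i| ≤ N} := by
      have h5 : Set.Finite {a : Index T → ℤ | ∀ i, a i ∈ Set.Icc (-(N : ℤ)) (N : ℤ)} :=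
        Set.Finite.pi' fun _ => Set.finite_Icc _ _
      refine h5.subset ?_
      intro a ha i
      exact abs_le.1 (ha i)
    let Z : ℕ → Set (Index T → ℤ) := fun q => {a : Index T → ℤ | (∀ i, |a i| ≤ N) ∧
        eval (fun i => (a i : ℂ)) (P q) = 0 ∧ eval (fun i => (a i : ℂ)) (Q q) = 0}
    have hZf : ∀ q, (Z q).Finite := fun q => hbox.subset fun a ha => ha.1
    have hsub : {a : Index T → ℤ | (∀ i, |a i| ≤ N) ∧
        ((eval (fun i => (a i : ℂ)) D ≠ 0 ∧
          (deficiency T : ℝ) + ε ≤ kerDim (mat T (fun i => (a i : ℂ)))) ∨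
        (deficiency T : ℝ) + 1 + ε ≤ kerDim (mat T (fun i => (a i : ℂ))))} ⊆
        ⋃ q ∈ Finset.range (2 * n + 3), Z q := by
      rintro a ⟨ha, hb⟩
      obtain ⟨q, hq, hq'⟩ := hV n (fun i => (a i : ℂ)) (by
        rcases hb with ⟨hb1, hb2⟩ | hb
        · exact Or.inl ⟨hb1, by rw [← Aux.kd_eq]; linarith⟩
        · exact Or.inr (by rw [← Aux.kd_eq]; linarith))
      simp only [Set.mem_iUnion]
      exact ⟨q, Finset.mem_range.2 (by omega), ha, hq'⟩
    have hfin : (⋃ q ∈ Finset.range (2 * n + 3), Z q).Finite :=
      Set.Finite.biUnion (Finset.finite_toSet _) fun q _ => hZf q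
    refine (Set.ncard_le_ncard hsub hfin).trans ?_
    have hind : ∀ s : Finset ℕ, (⋃ q ∈ s, Z q).ncard ≤
        (∑ q ∈ s, C q) * (N + 1) ^ (Fintype.card (Index T) - 2) := by
      intro s
      induction s using Finset.induction_on with
      | empty => simp
      | insert q s hq ih =>
        rw [Finset.set_biUnion_insert, Finset.sum_insert hq, add_mul]
        exact (Set.ncard_union_le _ _).trans (add_le_add (hCC q N) ih)
    exact hind _

end Pool.Agent.Results.MP_95030e_al.CodimensionOne
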