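import Pool.Agent.N309.LO.OneLine

/-!
# The Atiyah conjecture and invariant orders

Let `G` act on a totally ordered set `X`, preserving the order, and give levels in `X` to the rows
and the columns of a matrix `A` over the complex group algebra such that all terms of `A` are at
most at the level of their row. Then the von Neumann dimension of the kernel of `A` on `ℓ²(G)^m` is
at most that of the part of `A` at the top level. For a left-ordered group `G` acting on itself the
part at the top level is, up to monomial matrices, a matrix of complex numbers; so its rank is a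
lower bound for the von Neumann rank of `A`.

Outline. Let `Q` be the projection to the orthogonal complement of the kernel of `A`. For `y` in `X`
let `U_y` be the closed span of the `Q δ` for the basis vectors `δ` whose image under `A` is
supported at levels at most `y`, let `V_y` be the closed span of those with levels less than `y`,
and let `W_y` be the orthogonal complement of `V_y` in `U_y`. The `W_y` are pairwise orthogonal and
orthogonal to the kernel, and they are permuted by `G`. The operator which maps `f` to the function
which is `A` applied to the projection of `f` to `W_y`, at the basis vectors of level `y`, is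
bounded and equivariant, vanishes on the kernel of `A`, and takes the same values as the top part
`B` of `A` on the basis vectors up to elements of its own range. Comparing ranks gives the
inequality.
-/

set_option autoImplicit false

universe u v

namespace Pool.Agent.Results.MP_95030e_al.LeftOrderableMatrices

/-- The kernel of right multiplication by the matrix `A` on `ℓ²(G)^m`. -/
def kernel {G : Type u} [Group G] {m n : ℕ} (A : Fin m → Fin n → (G →₀ ℂ)) :
    Set (lp (fun _ : Fin m × G => ℂ) 2) :=
  {x | ∀ (j : Fin n) (g : G), ∑ k : Fin m, ∑ h ∈ (A k j).support, x (k, g * h⁻¹) * A k j h = 0}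

open Classical in
/-- The von Neumann dimension of the kernel of right multiplication by `A` on `ℓ²(G)^m`: the sum
over the rows `i` of one minus the squared distance of the basis vector at `(i, 1)` to the
kernel. -/
noncomputable def kerDim {G : Type u} [Group G] {m n : ℕ} (A : Fin m → Fin n → (G →₀ ℂ)) : ℝ :=
  ∑ i : Fin m, (1 - (Metric.infDist
    (lp.single 2 (i, (1 : G)) (1 : ℂ) : lp (fun _ : Fin m × G => ℂ) 2) (kernel A)) ^ 2)

/-- The action of `G` on the totally ordered set `X` preserves the order. -/
def OrderPreserving (G : Type u) (X : Type v) [Group G] [MulAction G X] [LinearOrder X] : Prop :=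
  ∀ (g : G) (a b : X), a ≤ b → g • a ≤ g • b

/-- With the levels `r` of the rows and `c` of the columns, all terms of `A` are at most at the
level of their row. -/
def Dominates {G : Type u} {X : Type v} [Group G] [MulAction G X] [LinearOrder X] {m n : ℕ}
    (A : Fin m → Fin n → (G →₀ ℂ)) (r : Fin m → X) (c : Fin n → X) : Prop :=
  ∀ k j, ∀ h ∈ (A k j).support, h • c j ≤ r k

open Classical in
/-- The part of `A` at the top level: the terms at the level of their row. -/
noncomputable def top {G : Type u} {X : Type v} [Group G] [MulAction G X] {m n : ℕ}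
    (A : Fin m → Fin n → (G →₀ ℂ)) (r : Fin m → X) (c : Fin n → X) :
    Fin m → Fin n → (G →₀ ℂ) :=
  fun k j => (A k j).filter (fun h => h • c j = r k)

/-- The complex matrix of the coefficients of `A` at the top level, for levels in `G`. -/
def topMatrix {G : Type u} [Group G] {m n : ℕ} (A : Fin m → Fin n → (G →₀ ℂ)) (r : Fin m → G)
    (c : Fin n → G) : Matrix (Fin m) (Fin n) ℂ :=
  Matrix.of fun k j => A k j (r k * (c j)⁻¹)

/-- No nonzero element of the complex group algebra of `G` has a nonzero kernel on `ℓ²(G)` (right
multiplication by a matrix with one row and one column). -/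
def NoZeroDivisors (G : Type u) [Group G] : Prop :=
  ∀ α : G →₀ ℂ, α ≠ 0 → kerDim (fun _ _ : Fin 1 => α) = 0

open Classical in
theorem top_apply {G : Type u} {X : Type v} [Group G] [MulAction G X] {m n : ℕ}
    (A : Fin m → Fin n → (G →₀ ℂ)) (r : Fin m → X) (c : Fin n → X) (k : Fin m) (j : Fin n)
    (h : G) : top A r c k j h = if h • c j = r k then A k j h else 0 :=
  Finsupp.filter_apply _ _ _

theorem kerDim_eq {G : Type u} [Group G] {m n : ℕ} (A : Fin m → Fin n → (G →₀ ℂ)) :
    kerDim A = W649.ZL.kerDimM A := rfl

theorem reg_of {G : Type u} [Group G] (α : G →₀ ℂ) (h : kerDim (fun _ _ : Fin 1 => α) = 0) :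
    N309.LO.Reg α := by
  intro x hx hk
  have hmem : Memℓp (fun z : Fin 1 × G => x z.2) 2 := by
    rw [W649.ZL.memlp_two_iff] at hx ⊢
    exact hx.comp_injective (i := fun z : Fin 1 × G => z.2) (by
      rintro ⟨a, b⟩ ⟨c, d⟩ hh
      exact Prod.ext (Subsingleton.elim _ _) hh)
  have h1 := N309.LO.kern_of_kerDimM_eq_zero (fun _ _ : Fin 1 => α) h
    (⟨fun z : Fin 1 × G => x z.2, hmem⟩ : lp (fun _ : Fin 1 × G => ℂ) 2) (by
      intro j g
      rw [Fin.sum_univ_one]
      exact hk g)
  funext g
  exact congrArg (fun H : lp (fun _ : Fin 1 × G => ℂ) 2 => H ((0 : Fin 1), g)) h1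

theorem exists_entry {G : Type u} [Group G] {m n : ℕ} (A : Fin m → Fin n → (G →₀ ℂ))
    (h : A ≠ 0) : ∃ k j, A k j ≠ 0 := by
  by_contra hcon
  push Not at hcon
  apply h
  funext k j
  exact hcon k j

/-- **The Atiyah conjecture and invariant orders.** All matrices are over the complex group
algebra of `G`.

1. If `G` acts on a totally ordered set and preserves the order, then for all levels of the rows
and columns for which all terms of `A` are at most at the level of their row, the kernel dimension
of `A` is at most that of the part of `A` at the top level.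
2. If `G` has a left-invariant total order, then for all such levels in `G` the kernel dimension
of `A` is at most the number `m` of rows minus the rank of the complex matrix `C` of the top
coefficients. So it is an integer, `0` or `m - n`, if the rank of `C` is `m` or the number `n` of
columns.
3. If `G` has a left-invariant total order and `A ≠ 0`, the kernel dimension is at most `m - 1`; it
is `0` if `m = 1` and `m - 1` if `n = 1`.
4. The same holds if `G` preserves a total order of the left cosets of a subgroup `N` and no
nonzero element of the complex group algebra of `N` has a kernel on `ℓ²(N)`. -/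
theorem result :
    (∀ (G : Type u) (X : Type v) [Group G] [MulAction G X] [LinearOrder X],
      OrderPreserving G X → ∀ (m n : ℕ) (A : Fin m → Fin n → (G →₀ ℂ)) (r : Fin m → X)
        (c : Fin n → X), Dominates A r c → kerDim A ≤ kerDim (top A r c)) ∧
    (∀ (G : Type u) [Group G] [LinearOrder G], OrderPreserving G G →
      ∀ (m n : ℕ) (A : Fin m → Fin n → (G →₀ ℂ)) (r : Fin m → G) (c : Fin n → G),
        Dominates A r c →
          kerDim A ≤ m - (topMatrix A r c).rank ∧
          ((topMatrix A r c).rank = m → kerDim A = 0) ∧
          ((topMatrix A r c).rank = n → kerDim A = m - n)) ∧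
    (∀ (G : Type u) [Group G] [LinearOrder G], OrderPreserving G G →
      ∀ (m n : ℕ) (A : Fin m → Fin n → (G →₀ ℂ)), A ≠ 0 →
        kerDim A ≤ m - 1 ∧ (m = 1 → kerDim A = 0) ∧ (n = 1 → kerDim A = m - 1)) ∧
    (∀ (G : Type u) [Group G] (N : Subgroup G) [LinearOrder (G ⧸ N)],
      OrderPreserving G (G ⧸ N) → NoZeroDivisors N →
      ∀ (m n : ℕ) (A : Fin m → Fin n → (G →₀ ℂ)), A ≠ 0 →
        kerDim A ≤ m - 1 ∧ (m = 1 → kerDim A = 0) ∧ (n = 1 → kerDim A = m - 1)) := by
  have low : ∀ (G : Type u) [Group G] (m n : ℕ) (A : Fin m → Fin n → (G →₀ ℂ)),
      (m : ℝ) - n ≤ kerDim A := by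
    intro G _ m n A
    have h := N309.LO.kerDimM_ge A
    rwa [Fintype.card_fin, Fintype.card_fin] at h
  have nn : ∀ (G : Type u) [Group G] (m n : ℕ) (A : Fin m → Fin n → (G →₀ ℂ)),
      0 ≤ kerDim A := fun G _ m n A => N309.LO.kerDimM_nonneg A
  have one : ∀ (G : Type u) [Group G], (∀ α : G →₀ ℂ, α ≠ 0 → N309.LO.Reg α) →
      ∀ (m n : ℕ) (A : Fin m → Fin n → (G →₀ ℂ)), A ≠ 0 →
        kerDim A ≤ m - 1 ∧ (m = 1 → kerDim A = 0) ∧ (n = 1 → kerDim A = m - 1) := by
    intro G _ hG m n A hA
    obtain ⟨k, j, hkj⟩ := exists_entry A hA
    have h1 := N309.LO.kerDimM_le_of_entry A k j (hG _ hkj)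
    rw [Fintype.card_fin] at h1
    have h1' : kerDim A ≤ m - 1 := h1
    refine ⟨h1', fun hm => ?_, fun hn => ?_⟩
    · have hm' : (m : ℝ) = 1 := by exact_mod_cast hm
      have h2 := nn G m n A
      linarith
    · have hn' : (n : ℝ) = 1 := by exact_mod_cast hn
      have h2 := low G m n A
      linarith
  refine ⟨?_, ?_, ?_, ?_⟩
  · intro G X _ _ _ hX m n A r c hd
    refine N309.LO.mat_le hX r c A (top A r c) hd ?_ ?_
    · intro k j h hh
      rw [top_apply, if_pos hh]
    · intro k j h hh
      rw [top_apply, if_neg hh]
  · intro G _ _ hG m n A r c hd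
    have key : kerDim A ≤ m - (topMatrix A r c).rank := by
      classical
      obtain ⟨κ, a, ha, hspan, hli⟩ := exists_linearIndependent' ℂ (topMatrix A r c).row
      have hfin : Fintype κ := Fintype.ofInjective a ha
      let S : Finset (Fin m) := Finset.univ.image a
      have hS : S.card = (topMatrix A r c).rank := by
        rw [Finset.card_image_of_injective _ ha, Matrix.rank_eq_finrank_span_row, ← hspan,
          finrank_span_eq_card hli, Finset.card_univ]
      have h1 := N309.LO.rank_le (fun g a b h => hG g a b h) A r c (fun k j h hh => hd k j h hh) S ?_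
      · rw [Fintype.card_fin, hS] at h1
        exact h1
      · let e : κ ≃ S := Equiv.ofBijective (fun i => ⟨a i, Finset.mem_image_of_mem a
          (Finset.mem_univ i)⟩) ⟨fun i j hij => ha (congrArg Subtype.val hij), by
            rintro ⟨s, hs⟩
            obtain ⟨i, _, hi⟩ := Finset.mem_image.1 hs
            exact ⟨i, Subtype.ext hi⟩⟩
        rw [← linearIndependent_equiv e]
        exact hli
    refine ⟨key, fun hr => ?_, fun hr => ?_⟩
    · apply le_antisymm _ (nn G m n A)
      rw [hr, sub_self] at key
      exact key
    · apply le_antisymm _ (low G m n A)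
      rw [hr] at key
      exact key
  · intro G _ _ hG m n A hA
    exact one G (fun α hα => N309.LO.reg_left (fun g a b h => hG g a b h) α hα) m n A hA
  · intro G _ N _ hN h0 m n A hA
    exact one G (fun α hα => N309.LO.reg_order N (fun g a b h => hN g a b h)
      (fun β hβ => reg_of β (h0 β hβ)) α hα) m n A hA

end Pool.Agent.Results.MP_95030e_al.LeftOrderableMatrices
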